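import Pool.Agent.L0h33.RI.Imm

/-!
# Immunity relative to a random oracle: the theorem
-/

set_option autoImplicit false

namespace Pool.Agent.L0h33.RI

open Function Pool.Agent.NPC Pool.Agent.L0h33.LD Pool.Agent.L0h33.RR MeasureTheory
open Pool.Agent.H660R2.NX
open Pool.Agent.H620R2.Gauge (Oracle IsFP IsP Alg)
open Pool.Agent.H620R2.Gauge (IsFP.pair IsFP.comp IsFP.of_poly IsFP.precomp IsFP.votes IsFP.tt
  Alg.out_local)
open Pool.Agent.H628R3.RO (prob randomOracle Loc strsEq mem_strsEq length_strsEq nodup_strsEq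
  Cand cands pos spots allSpots Hit NoHit HitSet plant mem_cands asks p_asks asks_all
  not_mem_noHit measurableSet_of_loc sat_ge sat_le finite_length_le key_sat key_taut)
open Pool.Agent.H628R3.RO.M2 (prob_nonneg prob_mono pos_inj mem_spots
  measurableSet_noHit loc_noHit)
open Pool.Agent.H628R3.RO (card_cands half_pow_mul half_pow_le_one)
open scoped ENNReal

attribute [local irreducible] unpair

theorem Loc.mono' {K K' : Set (List Bool)} (h : K ⊆ K') {S : Set Oracle} (hS : Loc K S) :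
    Loc K' S := fun A A' hA => hS A A' fun x hx => hA x (h hx)

theorem loc_compl {K : Set (List Bool)} {S : Set Oracle} (hS : Loc K S) : Loc K Sᶜ :=
  fun A A' h => not_congr (hS A A' h)

theorem loc_inter {K : Set (List Bool)} {S S' : Set Oracle} (hS : Loc K S) (hS' : Loc K S') :
    Loc K (S ∩ S') := fun A A' h => and_congr (hS A A' h) (hS' A A' h)

/-- The Borel-Cantelli argument along the range of the tower function. -/
theorem fin_of {Z Er : ℕ → Set Oracle} {b : Polynomial ℕ}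
    (hZ : ∀ n, Loc {q : List Bool | q.length ≤ b.eval n} (Z n))
    (hE : ∀ n, Loc {q : List Bool | q.length ≤ b.eval n} (Er n)) {t h : ℕ → ℕ} {N : ℕ}
    (hN : ∀ n ≥ N, 1 ≤ h n ∧ t n * (n + 2) ^ 2 ≤ 2 ^ h n)
    (hi : ∀ n, 1 ≤ h n → ∀ τ : Set Oracle, Loc {q : List Bool | q.length < n} τ →
      prob (Z n ∩ τ) ≤ 4 * prob (Er n ∩ τ) + 4 * (t n : ℝ) * (1 / 2) ^ h n) :
    ∀ᵐ A ∂randomOracle, (∀ k, A ∉ Er (tow k)) → {k | A ∈ Z (tow k)}.Finite := by
  obtain ⟨k₁, hk₁⟩ := gap b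
  refine finite_of (Z := fun k => Z (tow k)) (Er := fun k => Er (tow k))
    (fun k => measurableSet_of_loc (finite_length_le _) (hZ _))
    (fun k => measurableSet_of_loc (finite_length_le _) (hE _)) (max N k₁)
    (ε := fun k => 4 * (1 / ((k + 2 : ℕ) : ℝ) ^ 2)) (fun k => by positivity) ?_ fun k hk => ?_
  · refine Summable.mul_left 4 ?_
    exact (summable_nat_add_iff 2).2 (Real.summable_one_div_nat_pow.2 (by norm_num))
  · have hτ := loc_past (Er := fun k => Er (tow k)) (fun k => hE (tow k))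
      (k₀ := max N k₁) (fun k hk => hk₁ k (by omega)) k
    have hk' : N ≤ tow k := by
      have := le_tow k
      omega
    obtain ⟨h1, h2⟩ := hN (tow k) hk'
    refine (hi (tow k) h1 _ hτ).trans ?_
    refine add_le_add le_rfl ?_
    rw [mul_assoc]
    refine mul_le_mul_of_nonneg_left ?_ (by norm_num)
    have h3 : ((t (tow k) : ℕ) : ℝ) * ((k + 2 : ℕ) : ℝ) ^ 2 ≤ 2 ^ h (tow k) := by
      have h4 : t (tow k) * (k + 2) ^ 2 ≤ 2 ^ h (tow k) :=
        (Nat.mul_le_mul_left _ (Nat.pow_le_pow_left (by have := le_tow k; omega) 2)).trans h2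
      exact_mod_cast h4
    rw [one_div, one_div, inv_pow, ← div_eq_mul_inv, ← one_div,
      div_le_div_iff₀ (by positivity) (by positivity), one_mul]
    exact h3

/-- The polynomial factors. -/
theorem poly_bound (M : Alg) {g : ℕ → ℕ} (hg : Nice g) : ∃ c, ∀ n,
    M.p.eval (2 * n + 1 + g n) * (n + 2) ^ 2 ≤ 2 ^ (c * Nat.log 2 (n + 2)) := by
  obtain ⟨P, hP⟩ := nice_le hg
  obtain ⟨d, hd⟩ := Pool.Agent.H639R2.NTP.exists_pow_bound (M.p.comp (2 * Polynomial.X + 1 + P))
  refine ⟨2 * (d + 3), fun n => ?_⟩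
  have h1 : M.p.eval (2 * n + 1 + g n) ≤ (M.p.comp (2 * Polynomial.X + 1 + P)).eval n := by
    rw [Polynomial.eval_comp]
    refine Pool.Agent.NPC.eval_mono M.p ?_
    have := hP n
    simp
    omega
  have h2 : n ^ d ≤ (n + 2) ^ d := Nat.pow_le_pow_left (by omega) d
  have h3 : d ≤ (n + 2) ^ d := by
    calc d ≤ 2 ^ d := Nat.lt_two_pow_self.le
      _ ≤ (n + 2) ^ d := Nat.pow_le_pow_left (by omega) d
  have h4 : M.p.eval (2 * n + 1 + g n) ≤ (n + 2) ^ (d + 1) := by
    refine h1.trans ((hd n).trans ?_)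
    calc n ^ d + d ≤ 2 * (n + 2) ^ d := by omega
      _ ≤ (n + 2) * (n + 2) ^ d := Nat.mul_le_mul_right _ (by omega)
      _ = (n + 2) ^ (d + 1) := by rw [pow_succ]; ring
  have hlog : 1 ≤ Nat.log 2 (n + 2) := Nat.log_pos (by norm_num) (by omega)
  have h5 : n + 2 ≤ 2 ^ (2 * Nat.log 2 (n + 2)) := by
    have h5 := Nat.lt_pow_succ_log_self (b := 2) (by norm_num) (n + 2)
    refine h5.le.trans (Nat.pow_le_pow_right (by norm_num) (by omega))
  calc M.p.eval (2 * n + 1 + g n) * (n + 2) ^ 2 ≤ (n + 2) ^ (d + 1) * (n + 2) ^ 2 :=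
        Nat.mul_le_mul_right _ h4
    _ = (n + 2) ^ (d + 3) := by rw [← pow_add]
    _ ≤ (2 ^ (2 * Nat.log 2 (n + 2))) ^ (d + 3) := Nat.pow_le_pow_left h5 _
    _ = 2 ^ (2 * (d + 3) * Nat.log 2 (n + 2)) := by rw [← pow_mul]; congr 1; ring

/-- `h` exceeds `g` by more than the logarithm. -/
def Above (g h : ℕ → ℕ) : Prop :=
  ∀ c, ∀ᶠ n in Filter.atTop, g n + c * Nat.log 2 (n + 2) ≤ h n

/-- One polynomial for all. -/
theorem loc_all (M : Alg) {g h : ℕ → ℕ} (hg : Nice g) (hh : Nice h) : ∃ b : Polynomial ℕ, ∀ n,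
    Loc {q : List Bool | q.length ≤ b.eval n} (AccN M g n) ∧
    Loc {q : List Bool | q.length ≤ b.eval n} (NHn h n) ∧ n + 2 * h n + 2 ≤ b.eval n := by
  obtain ⟨b, hb⟩ := loc_accN M g hg
  obtain ⟨P, hP⟩ := nice_le hh
  refine ⟨b + (Polynomial.X + 2 * P + 2), fun n => ⟨?_, ?_, ?_⟩⟩
  · refine Loc.mono' ?_ (hb n)
    intro q hq
    rw [Set.mem_ofPred_eq] at hq ⊢
    rw [Polynomial.eval_add]
    omega
  · refine Loc.mono' ?_ (loc_NHn hP n)
    intro q hq
    rw [Set.mem_ofPred_eq] at hq ⊢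
    rw [Polynomial.eval_add]
    omega
  · have := hP n
    simp
    omega

theorem ae1 (M : Alg) {g h : ℕ → ℕ} (hg : Nice g) (hh : Nice h) (hgh : Above g h) :
    ∀ᵐ A ∂randomOracle, (∀ k, A ∉ AccN M g (tow k) ∩ NHn h (tow k)) →
      {k | A ∈ AccN M g (tow k)}.Finite := by
  obtain ⟨b, hb⟩ := loc_all M hg hh
  obtain ⟨c, hc⟩ := poly_bound M hg
  obtain ⟨N, hN⟩ := Filter.eventually_atTop.1 (hgh (c + 1))
  refine fin_of (Z := AccN M g) (Er := fun n => AccN M g n ∩ NHn h n) (b := b)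
    (fun n => (hb n).1) (fun n => loc_inter (hb n).1 (hb n).2.1) (h := h)
    (t := fun n => 2 ^ g n * M.p.eval (2 * n + 1 + g n)) (N := N) (fun n hn => ?_)
    fun n hn τ hτ => ?_
  · have h1 := hN n hn
    have hlog : 1 ≤ Nat.log 2 (n + 2) := Nat.log_pos (by norm_num) (by omega)
    refine ⟨by nlinarith, ?_⟩
    calc 2 ^ g n * M.p.eval (2 * n + 1 + g n) * (n + 2) ^ 2
        = 2 ^ g n * (M.p.eval (2 * n + 1 + g n) * (n + 2) ^ 2) := by ring
      _ ≤ 2 ^ g n * 2 ^ (c * Nat.log 2 (n + 2)) := Nat.mul_le_mul_left _ (hc n)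
      _ = 2 ^ (g n + c * Nat.log 2 (n + 2)) := by rw [pow_add]
      _ ≤ 2 ^ h n := Nat.pow_le_pow_right (by norm_num) (by nlinarith)
  · have h1 := ineqS (Z := AccN M g n) hn (hb n).1 (hb n).2.2 (key1 M g n (h n)) hτ
    simpa using h1

theorem ae2 (M : Alg) {g h : ℕ → ℕ} (hg : Nice g) (hh : Nice h) (hgh : Above (fun _ => 0) h) :
    ∀ᵐ A ∂randomOracle, (∀ k, A ∉ AccN M g (tow k) ∩ (NHn h (tow k))ᶜ) →
      {k | A ∈ AccN M g (tow k) ∩ NHn h (tow k)}.Finite := by
  obtain ⟨b, hb⟩ := loc_all M hg hh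
  obtain ⟨c, hc⟩ := poly_bound M hg
  obtain ⟨N, hN⟩ := Filter.eventually_atTop.1 (hgh (c + 1))
  refine fin_of (Z := fun n => AccN M g n ∩ NHn h n) (Er := fun n => AccN M g n ∩ (NHn h n)ᶜ)
    (b := b) (fun n => loc_inter (hb n).1 (hb n).2.1)
    (fun n => loc_inter (hb n).1 (loc_compl (hb n).2.1)) (h := h)
    (t := fun n => M.p.eval (2 * n + 1 + g n)) (N := N) (fun n hn => ?_)
    fun n hn τ hτ => ?_
  · have h1 := hN n hn
    have hlog : 1 ≤ Nat.log 2 (n + 2) := Nat.log_pos (by norm_num) (by omega)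
    refine ⟨by nlinarith, ?_⟩
    exact (hc n).trans (Nat.pow_le_pow_right (by norm_num) (by nlinarith))
  · exact ineq2 hn (hb n).1 (hb n).2.2 hτ

theorem ae3 (M : Alg) {g h : ℕ → ℕ} (hg : Nice g) (hh : Nice h) (hgh : Above (fun _ => 0) h) :
    ∀ᵐ A ∂randomOracle, (∀ k, A ∉ (AccN M g (tow k))ᶜ ∩ NHn h (tow k)) →
      {k | A ∈ (AccN M g (tow k))ᶜ}.Finite := by
  obtain ⟨b, hb⟩ := loc_all M hg hh
  obtain ⟨c, hc⟩ := poly_bound M hg
  obtain ⟨N, hN⟩ := Filter.eventually_atTop.1 (hgh (c + 1))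
  refine fin_of (Z := fun n => (AccN M g n)ᶜ) (Er := fun n => (AccN M g n)ᶜ ∩ NHn h n) (b := b)
    (fun n => loc_compl (hb n).1) (fun n => loc_inter (loc_compl (hb n).1) (hb n).2.1) (h := h)
    (t := fun n => M.p.eval (2 * n + 1 + g n)) (N := N) (fun n hn => ?_)
    fun n hn τ hτ => ?_
  · have h1 := hN n hn
    have hlog : 1 ≤ Nat.log 2 (n + 2) := Nat.log_pos (by norm_num) (by omega)
    refine ⟨by nlinarith, ?_⟩
    exact (hc n).trans (Nat.pow_le_pow_right (by norm_num) (by nlinarith))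
  · refine ineqS (Z := (AccN M g n)ᶜ) hn (loc_compl (hb n).1) (hb n).2.2 (fun B hB => ?_) hτ
    obtain ⟨T, hT, hT'⟩ := key2 M g n (h n) B (not_not.1 hB)
    exact ⟨T, hT, fun h' hh' hd => not_not.2 (hT' h' hh' hd)⟩

/-- The tally language of the numbers `n` in the range of the tower function for which a string `w`
of length `h (n)` is marked. -/
def LT (h : ℕ → ℕ) (A : Oracle) : Set (List Bool) :=
  {x | x ∈ Dset ∧ ∃ w : List Bool, w.length = h x.length ∧ Hit (h x.length) (x.length, w) A}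

theorem LT_sub (h : ℕ → ℕ) (A : Oracle) : LT h A ⊆ Dset := fun _ hx => hx.1

theorem tow_mem (k : ℕ) : ones (tow k) ∈ Dset := ⟨k, rfl⟩

theorem mem_LT {h : ℕ → ℕ} {A : Oracle} {k : ℕ} :
    ones (tow k) ∈ LT h A ↔ A ∉ NHn h (tow k) := by
  unfold NHn
  rw [not_mem_noHit]
  unfold LT
  rw [Set.mem_ofPred_eq]
  simp only [List.length_replicate, tow_mem, true_and]
  constructor
  · rintro ⟨w, hw, hh⟩
    exact ⟨(tow k, w), mem_cands.2 ⟨by simp, hw⟩, hh⟩
  · rintro ⟨⟨c, w⟩, hκ, hh⟩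
    obtain ⟨h1, h2⟩ := mem_cands.1 hκ
    simp only [Finset.mem_singleton] at h1
    subst h1
    exact ⟨w, h2, hh⟩

/-- Membership, with a prescribed answer outside of the range of the tower function. -/
theorem ga_LTe {h : ℕ → ℕ} (hh : Nice h) (A : Oracle) (e : Bool) :
    GA A h {x | x ∈ LT h A ∨ (x ∉ Dset ∧ e = true)} := by
  have k0 : Poly (fun y : List Bool => unpair y) := poly_unpair
  have k1 : Poly (fun y : List Bool => (unpair y).1) := k0.fst
  have k2 : Poly (fun y : List Bool => (unpair y).2) := k0.snd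
  have kl : UPoly (fun y : List Bool => (unpair y).1.length) := UPoly.length k1
  have hQ : Poly (fun y : List Bool => asks (h (unpair y).1.length) (unpair y).1.length
      (unpair y).2) := p_asks ((nice_upoly hh).comp k1) kl k2
  have e1 : Poly (fun p : List Bool × List Bool => (unpair p.1).1) :=
    k1.comp (NPC.Poly.fst NPC.Poly.id)
  have e2 : Poly (fun p : List Bool × List Bool =>
      decide ((unpair p.1).1 = (unpair p.1).1.map (fun _ => true)) &&
        inTow (unpair p.1).1.length) :=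
    NPC.Poly.and (NPC.Poly.decide_eq e1 (NPC.Poly.map (F := fun _ _ => true) e1
      (NPC.Poly.const true))) (poly_inTow (UPoly.length e1))
  have hH : Poly (fun p : List Bool × List Bool =>
      [if (decide ((unpair p.1).1 = (unpair p.1).1.map (fun _ => true)) &&
        inTow (unpair p.1).1.length) = true then p.2.all id else e]) :=
    NPC.Poly.cons (NPC.Poly.ite (NPC.Poly.decide_bool e2)
      (NPC.Poly.all (p := fun _ (b : Bool) => id b)
        (NPC.Poly.snd NPC.Poly.id) (NPC.Poly.snd NPC.Poly.id)) (NPC.Poly.const e))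
      (NPC.Poly.const [])
  refine ga_iff.2 ⟨_, IsFP.tt (A := A) hQ hH, fun x => ?_⟩
  unfold LT
  rw [Set.mem_ofPred_eq, Set.mem_ofPred_eq]
  simp only [unpair_pairBits, List.cons.injEq, and_true]
  have hD : ∀ d : Decidable (x = x.map (fun _ => true)),
      (@decide (x = x.map (fun _ => true)) d && inTow x.length) = true ↔ x ∈ Dset := fun d => by
    rw [mem_Dset, Bool.and_eq_true, decide_eq_true_eq]
  by_cases hx : x ∈ Dset
  · have h1 := (hD inferInstance).2 hx
    simp only [hx, h1, if_true, true_and, not_true_eq_false, false_and, or_false]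
    constructor
    · rintro ⟨w, hw, hh⟩
      exact ⟨w, hw, (asks_all A _ _ _).2 hh⟩
    · rintro ⟨w, hw, hh⟩
      exact ⟨w, hw, (asks_all A _ _ _).1 hh⟩
  · have h1 : (decide (x = x.map (fun _ => true)) && inTow x.length) = false := by
      rw [Bool.eq_false_iff]
      exact fun h => hx ((hD _).1 h)
    simp only [hx, h1, Bool.false_eq_true, if_false, false_and, false_or, not_false_eq_true,
      true_and]
    exact ⟨fun h' => ⟨List.replicate (h x.length) true, by simp, h'⟩, fun ⟨_, _, h'⟩ => h'⟩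

end Pool.Agent.L0h33.RI
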