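import Pool.Agent.L0h33.RI.Tow

/-!
# Immunity relative to a random oracle
-/

set_option autoImplicit false

namespace Pool.Agent.L0h33.RI

open Function Pool.Agent.NPC Pool.Agent.L0h33.LD Pool.Agent.L0h33.RR MeasureTheory
open Pool.Agent.H660R2.NX
open Pool.Agent.H620R2.Gauge (Oracle IsFP IsP Alg)
open Pool.Agent.H620R2.Gauge (IsFP.tt Alg.out_local)
open Pool.Agent.H628R3.RO (prob randomOracle Loc strsEq mem_strsEq length_strsEq nodup_strsEq
  Cand cands pos spots allSpots Hit NoHit HitSet plant mem_cands asks p_asks asks_all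
  not_mem_noHit measurableSet_of_loc sat_ge sat_le finite_length_le key_sat key_taut)
open Pool.Agent.H628R3.RO.M2 (prob_nonneg prob_mono pos_inj mem_spots
  measurableSet_noHit loc_noHit)
open Pool.Agent.H628R3.RO (card_cands half_pow_mul half_pow_le_one)
open scoped ENNReal

attribute [local irreducible] unpair

/-- The abstract argument: if the events `Z k` are not much more likely than the errors `Er k`, as
long as there was no error, then without any error only finitely many `Z k` happen. -/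
theorem finite_of {Z Er : ℕ → Set Oracle} (hZ : ∀ k, MeasurableSet (Z k))
    (hE : ∀ k, MeasurableSet (Er k)) (k₀ : ℕ) {ε : ℕ → ℝ} (hε0 : ∀ k, 0 ≤ ε k)
    (hε : Summable ε)
    (h : ∀ k ≥ k₀, prob (Z k ∩ ⋂ i ∈ Finset.Ico k₀ k, (Er i)ᶜ) ≤
      4 * prob (Er k ∩ ⋂ i ∈ Finset.Ico k₀ k, (Er i)ᶜ) + ε k) :
    ∀ᵐ A ∂randomOracle, (∀ k, A ∉ Er k) → {k | A ∈ Z k}.Finite := by
  set τ : ℕ → Set Oracle := fun k => ⋂ i ∈ Finset.Ico k₀ k, (Er i)ᶜ with hτ
  have hτm : ∀ k, MeasurableSet (τ k) := fun k =>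
    Finset.measurableSet_biInter _ fun i _ => (hE i).compl
  have h1 : (∑' k, randomOracle (Er (k₀ + k) ∩ τ (k₀ + k))) ≤ 1 := by
    rw [← measure_iUnion]
    · exact prob_le_one
    · intro i j hij
      rw [Function.onFun, Set.disjoint_left]
      rintro A ⟨h2, h3⟩ ⟨h4, h5⟩
      rcases lt_or_gt_of_ne hij with hlt | hlt
      · rw [hτ, Set.mem_iInter₂] at h5
        exact h5 (k₀ + i) (Finset.mem_Ico.2 ⟨by omega, by omega⟩) h2
      · rw [hτ, Set.mem_iInter₂] at h3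
        exact h3 (k₀ + j) (Finset.mem_Ico.2 ⟨by omega, by omega⟩) h4
    · exact fun k => (hE _).inter (hτm _)
  have h2 : ∀ k, randomOracle (Z (k₀ + k) ∩ τ (k₀ + k)) ≤
      4 * randomOracle (Er (k₀ + k) ∩ τ (k₀ + k)) + ENNReal.ofReal (ε (k₀ + k)) := by
    intro k
    have h3 := h (k₀ + k) (by omega)
    have h4 : randomOracle (Z (k₀ + k) ∩ τ (k₀ + k)) =
        ENNReal.ofReal (prob (Z (k₀ + k) ∩ τ (k₀ + k))) :=
      (ofReal_measureReal (measure_ne_top _ _)).symm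
    have h5 : randomOracle (Er (k₀ + k) ∩ τ (k₀ + k)) =
        ENNReal.ofReal (prob (Er (k₀ + k) ∩ τ (k₀ + k))) :=
      (ofReal_measureReal (measure_ne_top _ _)).symm
    rw [h4, h5]
    refine (ENNReal.ofReal_le_ofReal h3).trans ?_
    rw [ENNReal.ofReal_add (mul_nonneg (by norm_num) (prob_nonneg _)) (hε0 _),
      ENNReal.ofReal_mul (by norm_num), ENNReal.ofReal_ofNat]
  have h3 : (∑' k, randomOracle (Z (k₀ + k) ∩ τ (k₀ + k))) ≠ ∞ := by
    refine ne_top_of_le_ne_top ?_ (ENNReal.tsum_le_tsum h2)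
    rw [ENNReal.tsum_add, ENNReal.tsum_mul_left]
    have h4 : Summable (fun k => ε (k₀ + k)) := by
      have := (summable_nat_add_iff k₀).2 hε
      refine this.congr fun k => ?_
      rw [add_comm]
    rw [← ENNReal.ofReal_tsum_of_nonneg (fun k => hε0 _) h4]
    refine ENNReal.add_ne_top.2 ⟨ENNReal.mul_ne_top (by norm_num)
      (ne_top_of_le_ne_top ENNReal.one_ne_top h1), ENNReal.ofReal_ne_top⟩
  filter_upwards [ae_eventually_notMem h3] with A hA hno
  obtain ⟨N, hN⟩ := Filter.eventually_atTop.1 hA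
  refine (Set.finite_lt_nat (k₀ + N)).subset fun k hk => ?_
  rw [Set.mem_ofPred_eq]
  rw [Set.mem_ofPred_eq] at hk
  by_contra hlt
  push Not at hlt
  refine hN (k - k₀) (by omega) ?_
  rw [show k₀ + (k - k₀) = k by omega]
  exact ⟨hk, Set.mem_iInter₂.2 fun i _ => hno i⟩

/-- `M` accepts the input `1 ^ n` with some string of `g (n)` guessed bits. -/
def AccN (M : Alg) (g : ℕ → ℕ) (n : ℕ) : Set Oracle :=
  {A | ∃ u : List Bool, u.length = g n ∧ M.out A (pairBits (ones n) u) = some [true]}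

/-- No string of length `h (n)` is marked. -/
def NHn (h : ℕ → ℕ) (n : ℕ) : Set Oracle := NoHit (h n) (cands {n} (h n))

theorem loc_accN (M : Alg) (g : ℕ → ℕ) (hg : Nice g) : ∃ b : Polynomial ℕ, ∀ n,
    Loc {q : List Bool | q.length ≤ b.eval n} (AccN M g n) := by
  obtain ⟨qb, hqb⟩ := M.out_local
  obtain ⟨P, hP⟩ := nice_le hg
  refine ⟨qb.comp (2 * Polynomial.X + 1 + P), fun n A A' h => ?_⟩
  have h1 : ∀ u : List Bool, u.length = g n →
      M.out A (pairBits (ones n) u) = M.out A' (pairBits (ones n) u) := by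
    intro u hu
    obtain ⟨Q, _, hQ, hloc⟩ := hqb A' (pairBits (ones n) u)
    refine hloc A fun q hq => h q ?_
    have h2 := hQ q hq
    rw [LD.length_pairBits, hu, List.length_replicate] at h2
    rw [Set.mem_ofPred_eq, Polynomial.eval_comp]
    refine h2.trans (Pool.Agent.NPC.eval_mono qb ?_)
    have := hP n
    simp
    omega
  unfold AccN
  rw [Set.mem_ofPred_eq, Set.mem_ofPred_eq]
  refine exists_congr fun u => and_congr_right fun hu => ?_
  rw [h1 u hu]

theorem loc_NHn {h : ℕ → ℕ} {P : Polynomial ℕ} (hP : ∀ n, h n ≤ P.eval n) (n : ℕ) :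
    Loc {q : List Bool | q.length ≤ (Polynomial.X + 2 * P + 2).eval n} (NHn h n) := by
  refine loc_noHit ?_
  intro κ hκ i hi
  obtain ⟨h3, h4⟩ := mem_cands.1 hκ
  simp only [Finset.mem_singleton] at h3
  rw [Set.mem_ofPred_eq, Pool.Agent.H628R3.RO.length_pos, h3, h4]
  have := hP n
  simp
  omega

/-- Superpolynomial gaps. -/
theorem gap (b : Polynomial ℕ) : ∃ k₀, ∀ k ≥ k₀, b.eval (tow k) < tow (k + 1) := by
  obtain ⟨d, hd⟩ := Pool.Agent.H639R2.NTP.exists_pow_bound b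
  have h1 : ∀ᶠ n : ℕ in Filter.atTop, n ^ d + d < 2 ^ n := by
    have h2 := (tendsto_pow_const_div_const_pow_of_one_lt d (r := (2 : ℝ)) (by norm_num))
    have h3 := (tendsto_const_nhds (x := (d : ℝ))).div_atTop
      (tendsto_pow_atTop_atTop_of_one_lt (r := (2 : ℝ)) (by norm_num))
    have h4 := h2.add h3
    rw [add_zero] at h4
    filter_upwards [h4.eventually (gt_mem_nhds (show (0 : ℝ) < 1 by norm_num))] with n hn
    rw [← add_div, div_lt_one (by positivity)] at hn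
    exact_mod_cast hn
  obtain ⟨N, hN⟩ := Filter.eventually_atTop.1 h1
  refine ⟨N, fun k hk => (hd _).trans_lt ?_⟩
  exact hN (tow k) (hk.trans (le_tow k))

/-- The past. -/
theorem loc_past {Er : ℕ → Set Oracle} {b : Polynomial ℕ}
    (hE : ∀ k, Loc {q : List Bool | q.length ≤ b.eval (tow k)} (Er k)) {k₀ : ℕ}
    (hk₀ : ∀ k ≥ k₀, b.eval (tow k) < tow (k + 1)) (k : ℕ) :
    Loc {q : List Bool | q.length < tow k} (⋂ i ∈ Finset.Ico k₀ k, (Er i)ᶜ) := by
  intro A A' h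
  rw [Set.mem_iInter₂, Set.mem_iInter₂]
  refine forall₂_congr fun i hi => not_congr (hE i A A' fun q hq => h q ?_)
  obtain ⟨h1, h2⟩ := Finset.mem_Ico.1 hi
  have h3 := hk₀ i h1
  have h4 : tow (i + 1) ≤ tow k := tow_strictMono.monotone h2
  rw [Set.mem_ofPred_eq] at hq ⊢
  omega

theorem plant_past {S : Set Oracle} {n m : ℕ} (hS : Loc {q : List Bool | q.length < n} S)
    (B : Oracle) (h : Finset Cand) (hh : h ⊆ cands {n} m) :
    plant (allSpots m h) B ∈ S ↔ B ∈ S := by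
  refine hS _ _ fun q hq => ?_
  unfold plant
  rw [if_neg]
  intro hq'
  obtain ⟨κ, hκ, i, _, rfl⟩ := Pool.Agent.H628R3.RO.mem_allSpots.1 hq'
  obtain ⟨h3, _⟩ := mem_cands.1 (hh hκ)
  simp only [Finset.mem_singleton] at h3
  rw [Set.mem_ofPred_eq, Pool.Agent.H628R3.RO.length_pos] at hq
  omega

/-- If `M` rejects then it still rejects when marks are put at places it does not ask. -/
theorem key1 (M : Alg) (g : ℕ → ℕ) (n m : ℕ) (B : Oracle) (hB : B ∉ AccN M g n) :
    ∃ T : Finset Cand, T.card ≤ 2 ^ g n * M.p.eval (2 * n + 1 + g n) ∧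
      ∀ h ⊆ cands {n} m, Disjoint h T → plant (allSpots m h) B ∉ AccN M g n := by
  classical
  obtain ⟨qb, hqb⟩ := M.out_local
  choose Q hQ1 _ hQ3 using hqb B
  refine ⟨((strsEq (g n)).toFinset.biUnion fun u => Q (pairBits (ones n) u)).image candOf,
    ?_, fun h _ hd hp => ?_⟩
  · refine Finset.card_image_le.trans (Finset.card_biUnion_le.trans ?_)
    calc ∑ u ∈ (strsEq (g n)).toFinset, (Q (pairBits (ones n) u)).card
        ≤ ∑ _u ∈ (strsEq (g n)).toFinset, M.p.eval (2 * n + 1 + g n) := by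
          refine Finset.sum_le_sum fun u hu => ?_
          have h1 := hQ1 (pairBits (ones n) u)
          rw [List.mem_toFinset, mem_strsEq] at hu
          rwa [LD.length_pairBits, hu, List.length_replicate] at h1
      _ = _ := by
          rw [Finset.sum_const, List.toFinset_card_of_nodup (nodup_strsEq _), length_strsEq,
            smul_eq_mul]
  · obtain ⟨u, hu, hM⟩ := hp
    refine hB ⟨u, hu, ?_⟩
    rw [← hM]
    symm
    refine hQ3 (pairBits (ones n) u) _ fun q hq => ?_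
    unfold plant
    rw [if_neg]
    intro hq'
    obtain ⟨κ, hκ, i, hi, rfl⟩ := Pool.Agent.H628R3.RO.mem_allSpots.1 hq'
    refine Finset.disjoint_left.1 hd hκ (Finset.mem_image.2 ⟨_, ?_,
      candOf_eq (mem_spots.2 ⟨i, hi, rfl⟩)⟩)
    exact Finset.mem_biUnion.2 ⟨u, List.mem_toFinset.2 (mem_strsEq.2 hu), hq⟩

/-- If `M` accepts then it still accepts when marks are put at places which are not asked in an
accepting computation. -/
theorem key2 (M : Alg) (g : ℕ → ℕ) (n m : ℕ) (B : Oracle) (hB : B ∈ AccN M g n) :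
    ∃ T : Finset Cand, T.card ≤ M.p.eval (2 * n + 1 + g n) ∧
      ∀ h ⊆ cands {n} m, Disjoint h T → plant (allSpots m h) B ∈ AccN M g n := by
  classical
  obtain ⟨qb, hqb⟩ := M.out_local
  obtain ⟨u, hu, hM⟩ := hB
  obtain ⟨Q, hQ1, _, hQ3⟩ := hqb B (pairBits (ones n) u)
  refine ⟨Q.image candOf, ?_, fun h _ hd => ⟨u, hu, ?_⟩⟩
  · rw [LD.length_pairBits, hu, List.length_replicate] at hQ1
    exact Finset.card_image_le.trans hQ1
  · rw [← hM]
    refine hQ3 _ fun q hq => ?_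
    unfold plant
    rw [if_neg]
    intro hq'
    obtain ⟨κ, hκ, i, hi, rfl⟩ := Pool.Agent.H628R3.RO.mem_allSpots.1 hq'
    exact Finset.disjoint_left.1 hd hκ (Finset.mem_image.2 ⟨_, hq,
      candOf_eq (mem_spots.2 ⟨i, hi, rfl⟩)⟩)

/-- The general form of the inequality for errors of the first kind. -/
theorem ineqS {Z : Set Oracle} {h : ℕ → ℕ} {n : ℕ} (hm : 1 ≤ h n) {b : ℕ}
    (hA : Loc {q : List Bool | q.length ≤ b} Z) (hb : n + 2 * h n + 2 ≤ b) {t : ℕ}
    (hkey : ∀ B, B ∉ Z → ∃ T : Finset Cand, T.card ≤ t ∧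
      ∀ h' ⊆ cands {n} (h n), Disjoint h' T → plant (allSpots (h n) h') B ∉ Z)
    {τ : Set Oracle} (hτ : Loc {q : List Bool | q.length < n} τ) :
    prob (Z ∩ τ) ≤ 4 * prob (Z ∩ NHn h n ∩ τ) + 4 * (t : ℝ) * (1 / 2) ^ h n := by
  set W := cands {n} (h n) with hW
  have hcard : W.card = 2 ^ h n := by rw [hW, card_cands]; simp
  have hτ' : Loc {q : List Bool | q.length ≤ b} τ := fun A A' hh => hτ A A' fun q hq =>
    hh q (by rw [Set.mem_ofPred_eq] at hq ⊢; omega)
  have h1 := key_sat (finite_length_le b) hA hA hτ' W hm t (fun κ hκ i hi => by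
      obtain ⟨h3, h4⟩ := mem_cands.1 hκ
      simp only [Finset.mem_singleton] at h3
      rw [Set.mem_ofPred_eq, Pool.Agent.H628R3.RO.length_pos, h3, h4]
      omega) (fun B h' hh' => plant_past hτ B h' hh') (fun B _ hB => hkey B hB)
  rw [hcard] at h1
  have h2 : (1 / 4 : ℝ) ≤ (1 - (1 / 2 : ℝ) ^ h n) ^ 2 ^ h n := by
    have := sat_ge hm 1
    rwa [pow_one, one_mul] at this
  have h3 : prob (Z ∩ τ ∩ NoHit (h n) W) = prob (Z ∩ NHn h n ∩ τ) := by
    congr 1
    unfold NHn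
    ext A
    simp only [Set.mem_inter_iff]
    tauto
  rw [h3] at h1
  have h4 : prob (τ ∩ NoHit (h n) W) ≤ 1 := by
    rw [← Pool.Agent.H628R3.RO.prob_univ']
    exact prob_mono (Set.subset_univ _)
  have h5 : 0 ≤ prob (Z ∩ τ) := prob_nonneg _
  have h6 : (0 : ℝ) ≤ (t : ℝ) * (1 / 2) ^ h n := by positivity
  have h7 : (t : ℝ) * (1 / 2) ^ h n * prob (τ ∩ NoHit (h n) W) ≤
      (t : ℝ) * (1 / 2) ^ h n * 1 :=
    mul_le_mul_of_nonneg_left h4 h6
  nlinarith

/-- Errors of the second kind. -/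
theorem ineq2 {M : Alg} {g h : ℕ → ℕ} {n : ℕ} (hm : 1 ≤ h n) {b : ℕ}
    (hA : Loc {q : List Bool | q.length ≤ b} (AccN M g n)) (hb : n + 2 * h n + 2 ≤ b)
    {τ : Set Oracle} (hτ : Loc {q : List Bool | q.length < n} τ) :
    prob (AccN M g n ∩ NHn h n ∩ τ) ≤ 4 * prob (AccN M g n ∩ (NHn h n)ᶜ ∩ τ) +
      4 * (M.p.eval (2 * n + 1 + g n) : ℕ) * (1 / 2) ^ h n := by
  set W := cands {n} (h n) with hW
  have hcard : W.card = 2 ^ h n := by rw [hW, card_cands]; simp
  have hτ' : Loc {q : List Bool | q.length ≤ b} τ := fun A A' hh => hτ A A' fun q hq =>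
    hh q (by rw [Set.mem_ofPred_eq] at hq ⊢; omega)
  have h1 := key_taut (finite_length_le b) hA hA hτ' W hm
    (M.p.eval (2 * n + 1 + g n)) (fun κ hκ i hi => by
      obtain ⟨h3, h4⟩ := mem_cands.1 hκ
      simp only [Finset.mem_singleton] at h3
      rw [Set.mem_ofPred_eq, Pool.Agent.H628R3.RO.length_pos, h3, h4]
      omega) (fun B h' hh' => plant_past hτ B h' hh') (fun B _ hB => by
      obtain ⟨T, hT, hT'⟩ := key2 M g n (h n) B hB
      exact ⟨T, hT, fun h' hh' _ hd => hT' h' hh' hd⟩)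
  rw [hcard] at h1
  have h2 : (1 - (1 / 2 : ℝ) ^ h n) ^ 2 ^ h n ≤ 1 / 2 := by
    have := sat_le (h n) 1
    rwa [pow_one, one_mul] at this
  have h2' : 0 ≤ (1 - (1 / 2 : ℝ) ^ h n) ^ 2 ^ h n := by
    have := half_pow_le_one (h n)
    exact pow_nonneg (by linarith) _
  have h3 : prob (AccN M g n ∩ τ ∩ NoHit (h n) W) = prob (AccN M g n ∩ NHn h n ∩ τ) := by
    congr 1
    unfold NHn
    ext A
    simp only [Set.mem_inter_iff]
    tauto
  have h3' : prob (AccN M g n ∩ τ ∩ (NoHit (h n) W)ᶜ) = prob (AccN M g n ∩ (NHn h n)ᶜ ∩ τ) := by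
    congr 1
    unfold NHn
    ext A
    simp only [Set.mem_inter_iff]
    tauto
  rw [h3, h3'] at h1
  have h4 : prob τ ≤ 1 := by
    rw [← Pool.Agent.H628R3.RO.prob_univ']
    exact prob_mono (Set.subset_univ _)
  have h5 : 0 ≤ prob (AccN M g n ∩ NHn h n ∩ τ) := prob_nonneg _
  have h5' : 0 ≤ prob (AccN M g n ∩ (NHn h n)ᶜ ∩ τ) := prob_nonneg _
  have h6 : (0 : ℝ) ≤ (M.p.eval (2 * n + 1 + g n) : ℕ) * (1 / 2) ^ h n := by
    positivity
  set ρ := (1 - (1 / 2 : ℝ) ^ h n) ^ 2 ^ h n with hρ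
  set t := ((M.p.eval (2 * n + 1 + g n) : ℕ) : ℝ) * (1 / 2) ^ h n with ht
  have h7 : t * prob τ ≤ t * 1 := mul_le_mul_of_nonneg_left h4 h6
  have h8 : prob (AccN M g n ∩ NHn h n ∩ τ) * (1 / 2) ≤
      prob (AccN M g n ∩ NHn h n ∩ τ) * (1 - ρ) :=
    mul_le_mul_of_nonneg_left (by linarith) h5
  have h9 : (prob (AccN M g n ∩ (NHn h n)ᶜ ∩ τ) + t * prob τ) * ρ ≤
      (prob (AccN M g n ∩ (NHn h n)ᶜ ∩ τ) + t) * (1 / 2) := by
    refine mul_le_mul (by linarith) h2 h2' (by linarith)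
  have h10 : 4 * ((M.p.eval (2 * n + 1 + g n) : ℕ) : ℝ) * (1 / 2) ^ h n = 4 * t := by
    rw [ht]; ring
  rw [h10]
  linarith

end Pool.Agent.L0h33.RI
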