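import Pool.Agent.L0h33.RI.Top

/-!
# Immunity relative to a random oracle: all bounds at the same time
-/

set_option autoImplicit false

namespace Pool.Agent.L0h33.RI

open Function Pool.Agent.NPC Pool.Agent.L0h33.LD Pool.Agent.L0h33.RR MeasureTheory
open Pool.Agent.H660R2.NX
open Pool.Agent.H620R2.Gauge (Oracle IsFP IsP Alg)
open Pool.Agent.H620R2.Gauge (IsFP.pair IsFP.comp IsFP.of_poly IsFP.precomp IsFP.votes IsFP.tt
  Alg.out_local)
open Pool.Agent.H628R3.RO (randomOracle)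

attribute [local irreducible] unpair

/-- A subset of `Dset` which contains almost all its elements is in `P`. -/
theorem ga_near {A : Oracle} {S : Set (List Bool)} (hS : S ⊆ Dset) (hf : (Dset \ S).Finite) :
    GA A (fun _ => 0) S := by
  obtain ⟨m, hm⟩ := (hf.image List.length).bddAbove
  have h1 : Poly (fun x : List Bool => [decide (x = x.map (fun _ => true)) && inTow x.length]) :=
    NPC.Poly.cons (NPC.Poly.and (NPC.Poly.decide_eq NPC.Poly.id (NPC.Poly.map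
      (F := fun _ _ => true) NPC.Poly.id (NPC.Poly.const true)))
      (poly_inTow (UPoly.length NPC.Poly.id))) (NPC.Poly.const [])
  have k0 : Poly (fun y : List Bool => unpair y) := poly_unpair
  have k1 : Poly (fun y : List Bool => (unpair y).1) := k0.fst
  refine ga_patch (IsFP.of_poly (A := A) (h1.comp k1)) (m + 1) fun x hx => ?_
  simp only [unpair_pairBits, List.cons.injEq, and_true]
  rw [Bool.and_eq_true, decide_eq_true_eq, ← mem_Dset]
  constructor
  · intro h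
    exact ⟨[], rfl, hS h⟩
  · rintro ⟨_, _, h⟩
    by_contra hcon
    have := hm (Set.mem_image_of_mem List.length (show x ∈ Dset \ S from ⟨h, hcon⟩))
    omega

theorem acc_iff {A : Oracle} {M : Alg} {V : List Bool → List Bool}
    (hM : ∀ x, M.out A x = some (V x)) {g : ℕ → ℕ} {L : Set (List Bool)}
    (hV : ∀ x, x ∈ L ↔ ∃ w : List Bool, w.length = g x.length ∧ V (pairBits x w) = [true])
    (n : ℕ) : A ∈ AccN M g n ↔ ones n ∈ L := by
  rw [hV]
  unfold AccN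
  rw [Set.mem_ofPred_eq]
  simp only [List.length_replicate, hM, Option.some.injEq]

theorem finite_of_tow {L : Set (List Bool)} (hL : L ⊆ Dset)
    (h : {k | ones (tow k) ∈ L}.Finite) : L.Finite := by
  refine (h.image fun k => ones (tow k)).subset fun x hx => ?_
  obtain ⟨k, rfl⟩ := hL hx
  exact ⟨k, hx, rfl⟩

theorem ae_all : ∀ᵐ A ∂randomOracle, ∀ (M : Alg) (g h : ℕ → ℕ), Nice g → Nice h →
    (Above g h → (∀ k, A ∉ AccN M g (tow k) ∩ NHn h (tow k)) →
      {k | A ∈ AccN M g (tow k)}.Finite) ∧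
    (Above (fun _ => 0) h →
      ((∀ k, A ∉ AccN M g (tow k) ∩ (NHn h (tow k))ᶜ) →
        {k | A ∈ AccN M g (tow k) ∩ NHn h (tow k)}.Finite) ∧
      ((∀ k, A ∉ (AccN M g (tow k))ᶜ ∩ NHn h (tow k)) →
        {k | A ∈ (AccN M g (tow k))ᶜ}.Finite)) := by
  have hc := countable_nice.to_subtype
  have h1 : ∀ i : Alg × {g : ℕ → ℕ | Nice g} × {g : ℕ → ℕ | Nice g}, ∀ᵐ A ∂randomOracle,
      (Above i.2.1.1 i.2.2.1 →
        (∀ k, A ∉ AccN i.1 i.2.1.1 (tow k) ∩ NHn i.2.2.1 (tow k)) →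
        {k | A ∈ AccN i.1 i.2.1.1 (tow k)}.Finite) ∧
      (Above (fun _ => 0) i.2.2.1 →
        ((∀ k, A ∉ AccN i.1 i.2.1.1 (tow k) ∩ (NHn i.2.2.1 (tow k))ᶜ) →
          {k | A ∈ AccN i.1 i.2.1.1 (tow k) ∩ NHn i.2.2.1 (tow k)}.Finite) ∧
        ((∀ k, A ∉ (AccN i.1 i.2.1.1 (tow k))ᶜ ∩ NHn i.2.2.1 (tow k)) →
          {k | A ∈ (AccN i.1 i.2.1.1 (tow k))ᶜ}.Finite)) := by
    intro i
    by_cases ha : Above i.2.1.1 i.2.2.1 <;> by_cases hb : Above (fun _ => 0) i.2.2.1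
    · filter_upwards [ae1 i.1 i.2.1.2 i.2.2.2 ha, ae2 i.1 i.2.1.2 i.2.2.2 hb,
        ae3 i.1 i.2.1.2 i.2.2.2 hb] with A h1 h2 h3
      exact ⟨fun _ => h1, fun _ => ⟨h2, h3⟩⟩
    · filter_upwards [ae1 i.1 i.2.1.2 i.2.2.2 ha] with A h1
      exact ⟨fun _ => h1, fun h => absurd h hb⟩
    · filter_upwards [ae2 i.1 i.2.1.2 i.2.2.2 hb, ae3 i.1 i.2.1.2 i.2.2.2 hb] with A h2 h3
      exact ⟨fun h => absurd h ha, fun _ => ⟨h2, h3⟩⟩
    · exact Filter.Eventually.of_forall fun A => ⟨fun h => absurd h ha, fun h => absurd h hb⟩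
  rw [← ae_all_iff] at h1
  filter_upwards [h1] with A hA M g h hg hh
  exact hA (M, ⟨g, hg⟩, ⟨h, hh⟩)

theorem main : ∀ᵐ A ∂randomOracle, ∀ h, Nice h → Above (fun _ => 0) h →
    ∃ L ⊆ Dset, L.Infinite ∧ (Dset \ L).Infinite ∧ GA A h L ∧ GA A h (L ∪ Dsetᶜ) ∧
      (∀ g, Nice g → Above g h → ∀ L' ⊆ L, GA A g L' → L'.Finite) ∧
      (∀ p : Polynomial ℕ, ∀ L' ⊆ L, GA A (fun n => p.eval n) L'ᶜ → L'.Finite) ∧
      (∀ p : Polynomial ℕ, ∀ L' ⊆ Dset \ L, GA A (fun n => p.eval n) L' → L'.Finite) := by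
  filter_upwards [ae_all] with A hA h hh hb
  have e1 : ∀ g, Nice g → Above g h → ∀ L' ⊆ LT h A, GA A g L' → L'.Finite := by
    intro g hg hgh L' hL' hGA
    obtain ⟨V, ⟨M, hM⟩, hV⟩ := ga_iff.1 hGA
    have h1 := (hA M g h hg hh).1 hgh fun k hk => by
      have h2 := (acc_iff hM hV (tow k)).1 hk.1
      exact mem_LT.1 (hL' h2) hk.2
    refine finite_of_tow (hL'.trans (LT_sub h A)) (h1.subset fun k hk => ?_)
    exact (acc_iff hM hV (tow k)).2 hk
  have e2 : ∀ p : Polynomial ℕ, ∀ L' ⊆ LT h A, GA A (fun n => p.eval n) L'ᶜ → L'.Finite := by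
    intro p L' hL' hGA
    obtain ⟨V, ⟨M, hM⟩, hV⟩ := ga_iff.1 hGA
    have h1 := ((hA M _ h (nice_poly p) hh).2 hb).2 fun k hk => by
      have h2 : ones (tow k) ∈ L' := by
        by_contra hcon
        exact hk.1 ((acc_iff hM hV (tow k)).2 hcon)
      exact mem_LT.1 (hL' h2) hk.2
    refine finite_of_tow (hL'.trans (LT_sub h A)) (h1.subset fun k hk => ?_)
    exact fun h2 => (acc_iff hM hV (tow k)).1 h2 hk
  have e3 : ∀ p : Polynomial ℕ, ∀ L' ⊆ Dset \ LT h A, GA A (fun n => p.eval n) L' →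
      L'.Finite := by
    intro p L' hL' hGA
    obtain ⟨V, ⟨M, hM⟩, hV⟩ := ga_iff.1 hGA
    have h1 := ((hA M _ h (nice_poly p) hh).2 hb).1 fun k hk => by
      have h2 := (acc_iff hM hV (tow k)).1 hk.1
      exact (hL' h2).2 (mem_LT.2 hk.2)
    refine finite_of_tow (hL'.trans Set.diff_subset) (h1.subset fun k hk => ?_)
    exact ⟨(acc_iff hM hV (tow k)).2 hk, by_contra fun h2 => (hL' hk).2 (mem_LT.2 h2)⟩
  have z : (fun n : ℕ => (0 : Polynomial ℕ).eval n) = fun _ => 0 := by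
    funext n
    simp
  refine ⟨LT h A, LT_sub h A, fun hfin => ?_, fun hfin => ?_, ?_, ?_, e1, e2, e3⟩
  · have h1 : GA A (fun _ => 0) (Dset \ LT h A) := ga_near Set.diff_subset
      (hfin.subset fun x hx => by_contra fun hcon => hx.2 ⟨hx.1, hcon⟩)
    have h2 := e3 0 (Dset \ LT h A) subset_rfl (by rw [z]; exact h1)
    refine infinite_Dset ((hfin.union h2).subset fun x hx => ?_)
    by_cases hL : x ∈ LT h A
    · exact Or.inl hL
    · exact Or.inr ⟨hx, hL⟩
  · have h1 : GA A (fun _ => 0) (LT h A) := ga_near (LT_sub h A) hfin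
    have h2 := e1 _ (nice_const 0) hb (LT h A) subset_rfl h1
    refine infinite_Dset ((hfin.union h2).subset fun x hx => ?_)
    by_cases hL : x ∈ LT h A
    · exact Or.inr hL
    · exact Or.inl ⟨hx, hL⟩
  · have h1 := ga_LTe hh A false
    refine (congrArg (GA A h) ?_).mp h1
    ext x
    simp
  · have h1 := ga_LTe hh A true
    refine (congrArg (GA A h) ?_).mp h1
    ext x
    simp

end Pool.Agent.L0h33.RI
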