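import Pool.Agent.L0h33.RR.Main

/-!
# A sparse set of lengths
-/

set_option autoImplicit false

namespace Pool.Agent.L0h33.RI

open Function Pool.Agent.NPC Pool.Agent.L0h33.LD Pool.Agent.H660R2.NX

attribute [local irreducible] unpair

/-- The tower function: `1, 2, 4, 16, 65536, ...` -/
def tow : ℕ → ℕ
  | 0 => 1
  | k + 1 => 2 ^ tow k

theorem tow_pos : ∀ k, 1 ≤ tow k
  | 0 => le_rfl
  | k + 1 => Nat.one_le_two_pow

theorem tow_lt (k : ℕ) : tow k < tow (k + 1) := Nat.lt_two_pow_self

theorem tow_strictMono : StrictMono tow := strictMono_nat_of_lt_succ tow_lt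

theorem le_tow (k : ℕ) : k ≤ tow k := tow_strictMono.le_apply

theorem bits_two_pow (j : ℕ) : (2 ^ j).bits = List.replicate j false ++ [true] := by
  induction j with
  | zero => simp
  | succ j ih =>
    have h1 : 2 ^ (j + 1) = Nat.bit false (2 ^ j) := by simp [Nat.bit, pow_succ]; ring
    rw [h1, Nat.bits_append_bit _ _ (by intro h; exact absurd h (by positivity)), ih,
      List.replicate_succ, List.cons_append]

/-- The shape of the digits of a power of two. -/
def isPow (v : ℕ) : Bool := decide (v.bits = v.bits.tail.map (fun _ => false) ++ [true])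

theorem isPow_iff {v : ℕ} : isPow v = true ↔ v = 2 ^ (v.bits.length - 1) := by
  unfold isPow
  rw [decide_eq_true_eq]
  constructor
  · intro h
    have h1 : v.bits.length - 1 = v.bits.tail.length := by simp
    rw [h1]
    have h2 : valB v.bits = v := valB_bits v
    rw [h] at h2
    rw [List.map_const', valB_append] at h2
    have h3 : valB (List.replicate v.bits.tail.length false) = 0 := by
      generalize v.bits.tail.length = n
      induction n with
      | zero => rfl
      | succ n ih => rw [List.replicate_succ, valB_cons, ih]; simp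
    rw [h3, List.length_replicate] at h2
    simpa [valB] using h2.symm
  · intro h
    have h1 := bits_two_pow (v.bits.length - 1)
    rw [← h] at h1
    rw [List.map_const']
    have h2 : v.bits.tail.length = v.bits.length - 1 := by simp
    rw [h2]
    exact h1

/-- One step of the test. -/
def tst (s : ℕ × Bool) : ℕ × Bool :=
  if s.1 ≤ 1 then s else (s.1.bits.length - 1, s.2 && isPow s.1)

theorem log_le (v : ℕ) : v.bits.length - 1 ≤ v := by
  rw [Nat.size_eq_bits_len]
  have := size_le_self' v
  omega
where
  size_le_self' (v : ℕ) : v.size ≤ v := Nat.size_le.2 Nat.lt_two_pow_self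

theorem tst_fst_le (s : ℕ × Bool) : (tst s).1 ≤ s.1 := by
  unfold tst
  split_ifs
  · exact le_rfl
  · exact log_le _

theorem tst_iter_le (s : ℕ × Bool) (j : ℕ) : (tst^[j] s).1 ≤ s.1 := by
  induction j with
  | zero => exact le_rfl
  | succ j ih =>
    rw [iterate_succ_apply']
    exact (tst_fst_le _).trans ih

theorem tst_tow (k : ℕ) : tst (tow (k + 1), true) = (tow k, true) := by
  have h1 : ¬ tow (k + 1) ≤ 1 := by
    have := tow_lt k
    have := tow_pos k
    omega
  have h2 : isPow (tow (k + 1)) = true := by
    rw [isPow_iff]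
    unfold tow
    rw [bits_two_pow]
    simp
  unfold tst
  rw [if_neg h1]
  simp only [h2, Bool.and_true]
  rw [show tow (k + 1) = 2 ^ tow k from rfl, bits_two_pow]
  simp

theorem tst_one (j : ℕ) : tst^[j] (1, true) = (1, true) :=
  iterate_fixed (by unfold tst; simp) j

theorem tst_iter_tow : ∀ (k j : ℕ), k ≤ j → tst^[j] (tow k, true) = (1, true)
  | 0, j, _ => tst_one j
  | k + 1, j, h => by
    obtain ⟨j, rfl⟩ : ∃ j', j = j' + 1 := ⟨j - 1, by omega⟩
    rw [iterate_succ_apply, tst_tow]
    exact tst_iter_tow k j (by omega)

theorem tst_false (v : ℕ) (j : ℕ) : (tst^[j] (v, false)).2 = false := by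
  induction j generalizing v with
  | zero => rfl
  | succ j ih =>
    rw [iterate_succ_apply]
    unfold tst
    split_ifs
    · exact ih v
    · simp only [Bool.false_and]
      exact ih _

theorem tow_of_tst : ∀ (j v : ℕ), tst^[j] (v, true) = (1, true) → ∃ k, v = tow k
  | 0, v, h => ⟨0, (Prod.mk.inj h).1⟩
  | j + 1, v, h => by
    rw [iterate_succ_apply] at h
    unfold tst at h
    by_cases h1 : v ≤ 1
    · simp only [h1, if_true] at h
      exact tow_of_tst j v h
    · simp only [h1, if_false, Bool.true_and] at h
      cases h2 : isPow v with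
      | false =>
        rw [h2] at h
        have := tst_false (v.bits.length - 1) j
        change tst^[j] (v.bits.length - 1, false) = (1, true) at h
        rw [h] at this
        simp at this
      | true =>
        rw [h2] at h
        obtain ⟨k, hk⟩ := tow_of_tst j _ h
        refine ⟨k + 1, ?_⟩
        unfold tow
        rw [← hk]
        exact isPow_iff.1 h2

/-- The test for the numbers in the range of the tower function. -/
def inTow (n : ℕ) : Bool := decide (tst^[n] (n, true) = (1, true))

theorem inTow_iff {n : ℕ} : inTow n = true ↔ ∃ k, n = tow k := by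
  unfold inTow
  rw [decide_eq_true_eq]
  constructor
  · exact tow_of_tst n n
  · rintro ⟨k, rfl⟩
    exact tst_iter_tow k _ (le_tow k)

theorem poly_inTow {α : Type} [TEnc α] {n : α → ℕ} (hn : UPoly n) :
    Poly (fun a => inTow (n a)) := by
  have hn' := hn.toPoly
  obtain ⟨r, hr⟩ := hn'.sz_le
  have e1 : Poly (fun p : α × (ℕ × Bool) => p.2.1) :=
    NPC.Poly.fst (NPC.Poly.snd NPC.Poly.id)
  have e2 : Poly (fun p : α × (ℕ × Bool) => p.2.2) :=
    NPC.Poly.snd (NPC.Poly.snd NPC.Poly.id)
  have e3 : Poly (fun p : α × (ℕ × Bool) => isPow p.2.1) := by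
    unfold isPow
    exact NPC.Poly.decide_eq e1.natBits (NPC.Poly.append (NPC.Poly.map
      (F := fun _ _ => false) (NPC.Poly.tail e1.natBits) (NPC.Poly.const false))
      (NPC.Poly.const [true]))
  have hstep : Poly (fun p : α × (ℕ × Bool) => tst p.2) := by
    unfold tst
    exact NPC.Poly.ite (NPC.Poly.decide_le e1 (NPC.Poly.const 1)) (NPC.Poly.snd NPC.Poly.id)
      (NPC.Poly.pair (NPC.Poly.sub (NPC.Poly.length e1.natBits) (NPC.Poly.const 1))
        (NPC.Poly.and e2 e3))
  have hit : Poly (fun a => tst^[(List.replicate (n a) ()).length] (n a, true)) := by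
    refine Poly.iterLen (l := fun a => List.replicate (n a) ()) (s := fun a => (n a, true))
      (F := fun _ s => tst s) hn (NPC.Poly.pair hn' (NPC.Poly.const true)) hstep
      (2 * r + 10) ?_
    intro a j _
    have h1 := tst_iter_le (n a, true) j
    have h2 := sz_nat_mono_le h1
    have h3 := hr a
    have h4 := sz_bool_le (tst^[j] (n a, true)).2
    have h5 : sz (tst^[j] (n a, true)) = sz (tst^[j] (n a, true)).1 +
        sz (tst^[j] (n a, true)).2 + 1 := by
      rw [← sz_pair]
    simp only [Polynomial.eval_add, Polynomial.eval_mul, Polynomial.eval_ofNat]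
    simp only at h2
    change sz (tst^[j] (n a, true)) ≤ _
    omega
  have h := NPC.Poly.decide_eq hit (NPC.Poly.const (1, true))
  refine h.congr fun a => ?_
  unfold inTow
  rw [List.length_replicate]

/-- The strings `1 ^ n`, `n` in the range of the tower function. -/
def Dset : Set (List Bool) := {x | ∃ k, x = List.replicate (tow k) true}

theorem mem_Dset {x : List Bool} : x ∈ Dset ↔
    x = x.map (fun _ => true) ∧ inTow x.length = true := by
  unfold Dset
  rw [Set.mem_ofPred_eq, inTow_iff, List.map_const']
  constructor
  · rintro ⟨k, rfl⟩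
    simp
  · rintro ⟨h1, k, h2⟩
    exact ⟨k, by rw [← h2]; exact h1⟩

/-- The set of lengths is polynomial-time decidable, and infinite. -/
theorem inP_Dset : InP Dset := by
  have h1 : Poly (fun x : List Bool => [decide (x = x.map (fun _ => true)) && inTow x.length]) :=
    NPC.Poly.cons (NPC.Poly.and (NPC.Poly.decide_eq NPC.Poly.id (NPC.Poly.map
      (F := fun _ _ => true) NPC.Poly.id (NPC.Poly.const true)))
      (poly_inTow (UPoly.length NPC.Poly.id))) (NPC.Poly.const [])
  refine ⟨_, polyTime_of_poly' h1, fun x => ?_⟩
  rw [mem_Dset]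
  simp only [List.cons.injEq, and_true, Bool.and_eq_true, decide_eq_true_eq]

theorem infinite_Dset : Dset.Infinite := by
  have h1 : Function.Injective (fun k => List.replicate (tow k) true) := by
    intro k k' h
    have := congrArg List.length h
    simp only [List.length_replicate] at this
    exact tow_strictMono.injective this
  have h2 := Set.infinite_range_of_injective h1
  refine h2.mono ?_
  rintro x ⟨k, rfl⟩
  exact ⟨k, rfl⟩

end Pool.Agent.L0h33.RI
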